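import Mathlib
import Pool.Agent.Lib.MP_16ef92_ag.FT.Glue

set_option autoImplicit false

namespace Pool.Agent.Lib.MP_16ef92_ag.Old.FibreAll

open Polynomial Filter AlgebraicGeometry Pool.Agent.Lib.MP_16ef92_ag

/-- Let `F` be finite of odd order `q`, let `A i`, `B i`, `A i - B i` have the same positive degree
and let `N = ∏ A i B i (A i - B i) C i` be squarefree.  For `D` with `N D` squarefree let `X_D` be
the affine variety `y_i^2 = x_i (x_i - D C_i A_i) (x_i - D C_i B_i)` for all `i < n`, `N D ≠ 0`.
Among the `D` of degree `d`, the proportion of those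
for which `X_D` is smooth of dimension `n + 1` and, for every prime `l` different from the
characteristic and every `j`, the eigenvalue 1 of Frobenius on the etale cohomology group
`H^(2j)(X̄_D, ℚ_l(j))` is semisimple of multiplicity at most `n.choose (2 j - 1)` tends to 1 as `d`
tends to infinity. -/
theorem result (F : Type) [Field F] [Fintype F] (hq : Odd (Fintype.card F)) (n : ℕ)
    (A B C : Fin n → F[X]) (hsq : Squarefree (FT.bad A B C)) (hA : ∀ i, 0 < (A i).natDegree)
    (hB : ∀ i, (B i).natDegree = (A i).natDegree)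
    (hAB : ∀ i, (A i - B i).natDegree = (A i).natDegree) :
    Tendsto (fun d : ℕ =>
      (({D : F[X] | D.natDegree = d ∧ Squarefree (FT.bad A B C * D) ∧
        SmoothOfRelativeDimension (n + 1)
          (Spec.map (CommRingCat.ofHom (algebraMap F (FT.var A B C D)))) ∧
        ∀ (l : ℕ) [Fact l.Prime], (l : F) ≠ 0 → ∀ j : ℕ,
          FT.SemiOn l (Fintype.card F) j (n.choose (2 * j - 1))
            (EL.frob F (FT.var A B C D))}.ncard : ℝ)) /
      ({D : F[X] | D.natDegree = d ∧ Squarefree (FT.bad A B C * D)}.ncard : ℝ))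
      atTop (nhds 1) :=
  FT.main hq hsq hA hB hAB

end Pool.Agent.Lib.MP_16ef92_ag.Old.FibreAll
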