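import Mathlib
import Pool.Agent.Lib.MP_16ef92_ag.ET.Top2
import Pool.Agent.Lib.MP_16ef92_ag.Tian

set_option autoImplicit false

namespace Pool.Agent.Results.MP_16ef92_ag.RedeiEtale

open Polynomial AlgebraicGeometry Pool.Agent.Lib.MP_16ef92_ag Pool.Agent.Lib.MP_16ef92_ag.ET

/-- Let `F` be finite of odd order, `A`, `B`, `A - B` irreducible of the same degree `r` not
divisible by 4, `N = A B (A - B) D` squarefree, `deg D` of the parity of `r`, and let `D` have a
prime factor of odd degree.  Suppose `A B` is a square modulo each prime factor of `D` (the only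
prime factor of odd degree, if there is only one, is exempt) and neither `D A` nor `- D A` has a
factorisation of the second kind.  Then the affine surface `X : y^2 = x (x - D A) (x - D B)`,
`N ≠ 0`, is smooth and the eigenvalue 1 of Frobenius on the etale cohomology group
`H^2(X̄, ℚ_2(1))` is semisimple. -/
theorem result (F : Type) [Field F] [Fintype F] (hq : Odd (Fintype.card F)) (A B D : F[X])
    (hsq : Squarefree (A * B * (A - B) * D))
    (iA : Irreducible A) (iB : Irreducible B) (iC : Irreducible (A - B))
    (hB : B.natDegree = A.natDegree) (hC : (A - B).natDegree = A.natDegree)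
    (h4 : ¬ 4 ∣ A.natDegree) (hD : Even (A.natDegree + D.natDegree))
    (hodd : ∃ p : F[X], Irreducible p ∧ p ∣ D ∧ Odd p.natDegree)
    (hsplit : ∀ p : F[X], Irreducible p → p ∣ D → SqMod p (A * B) ∨
      ∀ p' : F[X], Irreducible p' → p' ∣ D → Odd p'.natDegree → Associated p' p)
    (hR₁ : NoSecondKind (D * A)) (hR₂ : NoSecondKind (-(D * A))) :
    SmoothOfRelativeDimension 2 (Spec.map (CommRingCat.ofHom (algebraMap F (surf A B D)))) ∧
      SemiOn (frob F (surf A B D)) :=
  haveI : Fact (Odd (Fintype.card F)) := ⟨hq⟩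
  semi_of_sel hq hsq iA.natDegree_pos hB hC hD (TF.sel ⟨hsq, iA, iB, iC, hB, hC, h4, hD, hodd,
    fun p hp hd => (hsplit p hp hd).imp_right fun h p' h1 h2 h3 => (h p' h1 h2 h3).dvd, hR₁, hR₂⟩)

end Pool.Agent.Results.MP_16ef92_ag.RedeiEtale
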