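import Mathlib
import Pool.Agent.Lib.MP_16ef92_ag.Main
import Pool.Agent.Lib.MP_16ef92_ag.Tian

set_option autoImplicit false

namespace Pool.Agent.Results.MP_16ef92_ag.RedeiFamily

open Polynomial Pool.Agent.Lib.MP_16ef92_ag

/-- Let `E : y^2 = x (x - D A) (x - D B)` over `F(t)`, `F` finite of odd order, with `A`, `B`,
`A - B` irreducible of the same degree `r` not divisible by 4, `A B (A - B) D` squarefree,
`deg D` of the parity of `r`, and `D` having a prime factor of odd degree.  Suppose `A B` is a
square modulo each prime factor of `D` (the only prime factor of odd degree, if there is only one,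
is exempt) and neither `D A` nor `- D A` has a factorisation of the second kind.  Then the
eigenvalue 1 of Frobenius on the first cohomology of the projective line with values in the middle
extension of the 2-adic Tate module is semisimple. -/
theorem result (F : Type) [Field F] [Fintype F] (hq : Odd (Fintype.card F))
    (L : Type) [Field L] [DecidableEq L] [Algebra (RatFunc F) L] [Algebra F L]
    [IsScalarTower F (RatFunc F) L] [IsSepClosure (RatFunc F) L] (A B D : F[X])
    (hsq : Squarefree (A * B * (A - B) * D))
    (iA : Irreducible A) (iB : Irreducible B) (iC : Irreducible (A - B))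
    (hB : B.natDegree = A.natDegree) (hC : (A - B).natDegree = A.natDegree)
    (h4 : ¬ 4 ∣ A.natDegree) (hD : Even (A.natDegree + D.natDegree))
    (hodd : ∃ p : F[X], Irreducible p ∧ p ∣ D ∧ Odd p.natDegree)
    (hsplit : ∀ p : F[X], Irreducible p → p ∣ D → SqMod p (A * B) ∨
      ∀ p' : F[X], Irreducible p' → p' ∣ D → Odd p'.natDegree → Associated p' p)
    (hR₁ : NoSecondKind (D * A)) (hR₂ : NoSecondKind (-(D * A)))
    (s : GalK F L) (hs : ∀ c : L, IsAlgebraic F c → s c = c ^ Fintype.card F)
    (c : GalK F L → ℕ → Pts L (curve A B D)) (hc : IsClass c)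
    (h2 : IsNull (subOne s (subOne s c))) : IsNull (subOne s c) :=
  haveI : Fact (Odd (Fintype.card F)) := ⟨hq⟩
  letI : Clos F := ⟨L, inferInstance, inferInstance, inferInstance, inferInstance, inferInstance,
    inferInstance⟩
  Fam.final ⟨hsq, hB, hC, hD⟩ (TF.sel ⟨hsq, iA, iB, iC, hB, hC, h4, hD, hodd, fun p hp hd =>
    (hsplit p hp hd).imp_right fun h p' h1 h2 h3 => (h p' h1 h2 h3).dvd, hR₁, hR₂⟩) hs hc h2

end Pool.Agent.Results.MP_16ef92_ag.RedeiFamily
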