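import Mathlib
import Pool.Agent.Lib.MP_16ef92_ag.EL.Top2
import Pool.Agent.Lib.MP_16ef92_ag.AL.NMain

set_option autoImplicit false

namespace Pool.Agent.Lib.MP_16ef92_ag.Old.TwistAll

open Polynomial Filter AlgebraicGeometry Pool.Agent.Lib.MP_16ef92_ag

/-- Let `F` be finite of odd order and let `A`, `B`, `A - B` have the same positive degree with
`N = A B (A - B)` squarefree.  For `D` with `N D` squarefree let `X_D` be the affine surface
`y^2 = x (x - D A) (x - D B)`, `N D ≠ 0`.  Among the `D` of degree `d`, the proportion of those for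
which `X_D` is a smooth surface and, for every prime `l` different from the characteristic, the
kernel of `(Frob - 1)^2` on the etale cohomology group `H^2(X̄_D, ℚ_l(1))` lies in the span of one
vector fixed by Frobenius tends to 1 as `d` tends to infinity. -/
theorem result (F : Type) [Field F] [Fintype F] (hq : Odd (Fintype.card F)) (A B : F[X])
    (hsq : Squarefree (A * B * (A - B))) (hA : 0 < A.natDegree)
    (hB : B.natDegree = A.natDegree) (hC : (A - B).natDegree = A.natDegree) :
    Tendsto (fun d : ℕ =>
      (({D : F[X] | D.natDegree = d ∧ Squarefree (A * B * (A - B) * D) ∧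
        SmoothOfRelativeDimension 2 (Spec.map (CommRingCat.ofHom (algebraMap F (ET.surf A B D)))) ∧
        ∀ (l : ℕ) [Fact l.Prime], (l : F) ≠ 0 →
          EL.SimpleOn l (EL.frob F (ET.surf A B D))}.ncard : ℝ)) /
      ({D : F[X] | D.natDegree = d ∧ Squarefree (A * B * (A - B) * D)}.ncard : ℝ))
      atTop (nhds 1) :=
  EL.final_of hq hsq hA hB hC fun _ hF hS l _ hl => AL.simpleL_of hF hS l hl

end Pool.Agent.Lib.MP_16ef92_ag.Old.TwistAll
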