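import Mathlib
import Pool.Agent.Lib.MP_16ef92_ag.GF.Top

set_option autoImplicit false

namespace Pool.Agent.Results.MP_16ef92_ag.TwistDensity

open Polynomial Filter Pool.Agent.Lib.MP_16ef92_ag Pool.Agent.Lib.MP_16ef92_ag.GF

/-- Let `F` be finite of odd order, `L` a separable closure of `F(t)`, and let `A`, `B`, `A - B`
have the same positive degree with `A B (A - B)` squarefree.  Among the `D` of degree `d` with
`A B (A - B) D` squarefree, the proportion of those for which the twist
`y^2 = x (x - D A) (x - D B)` is `Simple` tends to 1 as `d` tends to infinity: on the first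
cohomology of the projective line with values in the middle extension of the 2-adic Tate module,
the kernel of `(Frob - 1)^2` is spanned by one vector fixed by Frobenius. -/
theorem result (F : Type) [Field F] [Fintype F] (hq : Odd (Fintype.card F))
    (L : Type) [Field L] [DecidableEq L] [Algebra (RatFunc F) L] [Algebra F L]
    [IsScalarTower F (RatFunc F) L] [IsSepClosure (RatFunc F) L] (A B : F[X])
    (hsq : Squarefree (A * B * (A - B))) (hA : 0 < A.natDegree)
    (hB : B.natDegree = A.natDegree) (hC : (A - B).natDegree = A.natDegree) :
    Tendsto (fun d : ℕ =>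
      (({D : F[X] | D.natDegree = d ∧ Squarefree (A * B * (A - B) * D) ∧
        Simple L (curve A B D)}.ncard : ℝ)) /
      ({D : F[X] | D.natDegree = d ∧ Squarefree (A * B * (A - B) * D)}.ncard : ℝ))
      atTop (nhds 1) :=
  haveI : Fact (Odd (Fintype.card F)) := ⟨hq⟩
  letI : Clos F := ⟨L, inferInstance, inferInstance, inferInstance, inferInstance, inferInstance,
    inferInstance⟩
  final hsq hA hB hC

end Pool.Agent.Results.MP_16ef92_ag.TwistDensity
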