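import Mathlib
import Pool.Agent.Lib.MP_16ef92_ag.Main

set_option autoImplicit false

namespace Pool.Agent.Results.MP_16ef92_ag.TwoDescent

open Polynomial Pool.Agent.Lib.MP_16ef92_ag

/-- Let `E : y^2 = x (x - D A) (x - D B)` over `F(t)`, `F` finite of odd order, with `A B (A - B) D`
squarefree and good reduction at infinity, and let `L` be a separable closure of `F(t)`.  If every
2-Selmer pair of weight divisible by 4 comes from a 2-torsion point, then the eigenvalue 1 of
Frobenius on the first cohomology of the projective line with values in the middle extension of the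
2-adic Tate module is semisimple. -/
theorem result (F : Type) [Field F] [Fintype F] (hq : Odd (Fintype.card F))
    (L : Type) [Field L] [DecidableEq L] [Algebra (RatFunc F) L] [Algebra F L]
    [IsScalarTower F (RatFunc F) L] [IsSepClosure (RatFunc F) L] (A B D : F[X])
    (hsq : Squarefree (A * B * (A - B) * D)) (hB : B.natDegree = A.natDegree)
    (hC : (A - B).natDegree = A.natDegree) (hD : Even (A.natDegree + D.natDegree))
    (hSel : ∀ d₁ d₂ : F[X], IsSel A B D d₁ d₂ → 4 ∣ wt D d₁ d₂ → IsTorsImage A B D d₁ d₂)
    (s : GalK F L) (hs : ∀ c : L, IsAlgebraic F c → s c = c ^ Fintype.card F)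
    (c : GalK F L → ℕ → Pts L (curve A B D)) (hc : IsClass c)
    (h2 : IsNull (subOne s (subOne s c))) : IsNull (subOne s c) :=
  haveI : Fact (Odd (Fintype.card F)) := ⟨hq⟩
  letI : Clos F := ⟨L, inferInstance, inferInstance, inferInstance, inferInstance, inferInstance,
    inferInstance⟩
  Fam.final ⟨hsq, hB, hC, hD⟩ hSel hs hc h2

end Pool.Agent.Results.MP_16ef92_ag.TwoDescent
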